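import Pool.Agent.W977.CG.Spec

namespace W555.CG

open Module

theorem finrank_map_add {k M M' : Type} [Field k] [AddCommGroup M] [Module k M]
    [AddCommGroup M'] [Module k M'] (W : Submodule k M) [FiniteDimensional k W]
    (φ : M →ₗ[k] M') :
    finrank k (W.map φ) + finrank k (W ⊓ LinearMap.ker φ : Submodule k M) = finrank k W := by
  have h := LinearMap.finrank_range_add_finrank_ker (φ.domRestrict W)
  have h1 : LinearMap.range (φ.domRestrict W) = W.map φ := by
    ext x
    simp [Submodule.mem_map]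
  have h2 : (LinearMap.ker (φ.domRestrict W)).map W.subtype = W ⊓ LinearMap.ker φ := by
    ext x
    simp only [Submodule.mem_map, LinearMap.mem_ker, Submodule.mem_inf, Submodule.coe_subtype,
      Subtype.exists, LinearMap.domRestrict_apply]
    constructor
    · rintro ⟨a, ha, h3, rfl⟩
      exact ⟨ha, h3⟩
    · rintro ⟨h3, h4⟩
      exact ⟨x, h3, h4, rfl⟩
  have h5 : finrank k (LinearMap.ker (φ.domRestrict W)) =
      finrank k (W ⊓ LinearMap.ker φ : Submodule k M) := by
    rw [← h2]
    exact (Submodule.finrank_map_subtype_eq W _).symm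
  rw [h1] at h
  rw [← h5]
  exact h

theorem partStep : W977.CG.PartStep := by
  intro k S _ _ _ 𝒜 _ hfin J hJ e f hfe hreg
  have hle : J ≤ J ⊔ Ideal.span {f} := le_sup_left
  let q : S →ₐ[k] (S ⧸ J) := Ideal.Quotient.mkₐ k J
  let q' : S →ₐ[k] (S ⧸ (J ⊔ Ideal.span {f})) := Ideal.Quotient.mkₐ k (J ⊔ Ideal.span {f})
  let π : (S ⧸ J) →ₐ[k] (S ⧸ (J ⊔ Ideal.span {f})) := Ideal.Quotient.factorₐ k hle
  let μ : (S ⧸ J) →ₗ[k] (S ⧸ J) := LinearMap.mulLeft k (q f)
  have hq : ∀ x, q x = 0 ↔ x ∈ J := fun x => Ideal.Quotient.eq_zero_iff_mem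
  have hq' : ∀ x, q' x = 0 ↔ x ∈ J ⊔ Ideal.span {f} := fun x => Ideal.Quotient.eq_zero_iff_mem
  have hπ : ∀ x, π (q x) = q' x := fun x => rfl
  have hμ : Function.Injective μ := by
    rw [injective_iff_map_eq_zero]
    intro z hz
    obtain ⟨x, rfl⟩ := Ideal.Quotient.mk_surjective z
    have h1 : q (f * x) = 0 := by
      rw [map_mul]
      exact hz
    rw [hq] at h1
    have h2 := hreg x h1
    exact (hq x).2 h2
  -- membership in the sup
  have hmem : ∀ y, y ∈ J ⊔ Ideal.span {f} → ∃ a ∈ J, ∃ b, y = a + f * b := by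
    intro y hy
    obtain ⟨a, ha, c, hc, rfl⟩ := Submodule.mem_sup.1 hy
    obtain ⟨b, rfl⟩ := Ideal.mem_span_singleton'.1 hc
    exact ⟨a, ha, b, by rw [mul_comm f b]⟩
  have hmap : ∀ n, (𝒜 n).map q'.toLinearMap = ((𝒜 n).map q.toLinearMap).map π.toLinearMap := by
    intro n
    rw [← Submodule.map_comp]
    rfl
  have hfd : ∀ n, FiniteDimensional k ((𝒜 n).map q.toLinearMap) := fun n => inferInstance
  constructor
  · intro n hn
    have h1 := finrank_map_add ((𝒜 n).map q.toLinearMap) π.toLinearMap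
    have h2 : ((𝒜 n).map q.toLinearMap) ⊓ LinearMap.ker π.toLinearMap = ⊥ := by
      rw [eq_bot_iff]
      rintro w ⟨⟨y, hy, rfl⟩, hw⟩
      have h3 : q' y = 0 := hw
      rw [hq'] at h3
      obtain ⟨a, ha, b, rfl⟩ := hmem y h3
      have h4 : ((DirectSum.decompose 𝒜 (a + f * b)) n : S) = a + f * b :=
        DirectSum.decompose_of_mem_same 𝒜 hy
      rw [DirectSum.decompose_add, DirectSum.add_apply, Submodule.coe_add,
        DirectSum.coe_decompose_mul_of_left_mem_of_not_le 𝒜 hfe (by omega), add_zero] at h4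
      have h5 : a + f * b ∈ J := by
        rw [← h4]
        exact hJ n ha
      exact (hq _).2 h5
    rw [h2, finrank_bot, add_zero] at h1
    unfold W977.CG.hf
    rw [← h1]
    exact congrArg (fun (W : Submodule k _) => finrank k W) (hmap n)
  · intro n
    have h1 := finrank_map_add ((𝒜 (n + e)).map q.toLinearMap) π.toLinearMap
    have h2 : ((𝒜 (n + e)).map q.toLinearMap) ⊓ LinearMap.ker π.toLinearMap =
        ((𝒜 n).map q.toLinearMap).map μ := by
      ext w
      constructor
      · rintro ⟨⟨y, hy, rfl⟩, hw⟩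
        have h3 : q' y = 0 := hw
        rw [hq'] at h3
        obtain ⟨a, ha, b, rfl⟩ := hmem y h3
        have h4 : ((DirectSum.decompose 𝒜 (a + f * b)) (n + e) : S) = a + f * b :=
          DirectSum.decompose_of_mem_same 𝒜 hy
        have h6 : ((DirectSum.decompose 𝒜 (f * b)) (n + e) : S) =
            f * (DirectSum.decompose 𝒜 b n : S) := by
          rw [add_comm n e]
          exact DirectSum.coe_decompose_mul_add_of_left_mem 𝒜 hfe
        rw [DirectSum.decompose_add, DirectSum.add_apply, Submodule.coe_add, h6] at h4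
        refine ⟨q (DirectSum.decompose 𝒜 b n : S), ⟨_, (DirectSum.decompose 𝒜 b n).2, rfl⟩, ?_⟩
        have h7 : q ((DirectSum.decompose 𝒜 a (n + e) : S)) = 0 := (hq _).2 (hJ (n + e) ha)
        have h8 : q (a + f * b) = q f * q (DirectSum.decompose 𝒜 b n : S) := by
          rw [← h4, map_add, h7, zero_add, map_mul]
        exact h8.symm
      · rintro ⟨z, ⟨x, hx, rfl⟩, rfl⟩
        have h3 : f * x ∈ 𝒜 (n + e) := by
          rw [add_comm n e]
          exact SetLike.mul_mem_graded hfe hx
        have h4 : μ (q.toLinearMap x) = q (f * x) := by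
          rw [map_mul]
          rfl
        rw [h4]
        refine ⟨⟨f * x, h3, rfl⟩, ?_⟩
        have h5 : q' (f * x) = 0 :=
          (hq' _).2 (Ideal.mem_sup_right (Ideal.mul_mem_right _ _ (Ideal.mem_span_singleton_self f)))
        exact h5
    have h9 : finrank k (((𝒜 n).map q.toLinearMap).map μ) =
        finrank k ((𝒜 n).map q.toLinearMap) :=
      (Submodule.equivMapOfInjective μ hμ ((𝒜 n).map q.toLinearMap)).finrank_eq.symm
    rw [h2, h9] at h1
    unfold W977.CG.hf
    have h10 := congrArg (fun (W : Submodule k _) => finrank k W) (hmap (n + e))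
    exact (congrArg (fun t => t + finrank k ((𝒜 n).map q.toLinearMap)) h10).trans h1

end W555.CG
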